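import Pool.Agent.H37.CNW.Stmts
import Pool.Agent.H37.CNJ.Stmts

/-!
# Denominators of conductors: the groups `SL_3(q)`, `p` odd: `N = q (q ^ 2 - 1)`: statements of the rows of
the board `ctl`

Row `XXX` is a theorem `xxx_thm (h1 : S_AAA) ... : S_XXX` in `Pool/Agent/H<k>/CTL/XXX.lean`, importing this
file, namespace `Pool.CND`.

Covers: the splitting field over `k(t)` of `T ^ (q ^ 3) + a T ^ (q ^ 2) + b T ^ q + T`, `a, b ∈ k[t]`, whose roots form an `F`-space `V` with basis `X 0, X 1, X 2`.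
(I) `a = 0`, `b = t`: conductor `(q ^ 2 + q + 1) / (q ^ 2 - 1)`.  (II) `a = t ^ (q ^ 2 - q) - 2 t ^ (q ^ 2 - q - 1)`, `b = - t ^ (q ^ 2 - 2)`: conductor `(q ^ 4 - q ^ 2 - 2 q + 1) / (q (q - 1))`.
-/

set_option autoImplicit false

namespace Pool.CND

open Finset Polynomial

/-- the roots `X i` -/
structure S3 (k F L : Type) [Field k] [Field F] [Field L] [Algebra F k] [Algebra k L] (q : ℕ)
    (a b : Polynomial k) (t : L) (X : Fin 3 → L) : Prop where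
  rel : ∀ i, X i ^ q ^ 3 + aeval t a * X i ^ q ^ 2 + aeval t b * X i ^ q + X i = 0
  ind : ∀ c : Fin 3 → F, ∑ i, cst k F L (c i) * X i = 0 → c = 0
  tr : Transcendental k t

/-- the group of the cover is the subgroup `G₀` of `SL_3(F)` -/
structure C3 (k F L : Type) [Field k] [Field F] [Field L] [Algebra F k] [Algebra k L] (t : L)
    (X : Fin 3 → L) (G₀ : Subgroup (Matrix.SpecialLinearGroup (Fin 3) F))
    (ρ : G₀ →* (L ≃ₐ[k] L)) : Prop where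
  act : ∀ (g : G₀) (i : Fin 3), ρ g (X i) = ∑ j, cst k F L (g.1.1 j i) * X j
  cov : IsCover ρ t

/-! ## Existence and group theory -/

/-- T32: `L` = the splitting field over `RatFunc k` (separable: the derivative of the polynomial is `1`); the roots form an `F`-space with `q ^ 3` elements.  The Moore determinant `Δ = det (X i ^ (q ^ j))` is not `0` and `Δ ^ q = - Δ`
up to sign, so `Δ ∈ k` and the determinants of the matrices are `1`; `G₀` = the matrices of the automorphisms over `k(t)`.  Unramified: at a place with `t` finite the roots are finite with residues independent over `F` (as `SLI`, `UNK`: `v ≠ 0` of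
positive order contradicts `v = - (v ^ (q ^ 3) + ...)`) -/
def S_T32 : Prop := ∀ (p : ℕ) (k F : Type) [Field k] [IsAlgClosed k] [Field F] [Algebra F k]
  (f q : ℕ) (a b : Polynomial k), p.Prime → CharP k p → 1 ≤ f → q = p ^ f → Nat.card F = q →
  ∃ (L : Type) (_ : Field L) (_ : Algebra k L) (t : L) (X : Fin 3 → L)
    (G₀ : Subgroup (Matrix.SpecialLinearGroup (Fin 3) F)) (ρ : G₀ →* (L ≃ₐ[k] L)),
    S3 k F L q a b t X ∧ C3 k F L t X G₀ ρ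

/-- T36: change of basis: `X' i = ∑ h_ji X j`, `G₀' = h⁻¹ G₀ h` -/
def S_T36 : Prop := ∀ (p : ℕ) (k F L : Type) [Field k] [Field F] [Algebra F k] [Field L]
  [Algebra k L] (f q : ℕ) (a b : Polynomial k) (t : L) (X : Fin 3 → L)
  (G₀ : Subgroup (Matrix.SpecialLinearGroup (Fin 3) F)) (ρ : G₀ →* (L ≃ₐ[k] L))
  (h : Matrix (Fin 3) (Fin 3) F), p.Prime → CharP k p → 1 ≤ f → q = p ^ f → Nat.card F = q →
  S3 k F L q a b t X → C3 k F L t X G₀ ρ → h.det ≠ 0 →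
  ∃ (G₁ : Subgroup (Matrix.SpecialLinearGroup (Fin 3) F)) (ρ₁ : G₁ →* (L ≃ₐ[k] L)),
    S3 k F L q a b t (fun i => ∑ j, cst k F L (h j i) * X j) ∧
    C3 k F L t (fun i => ∑ j, cst k F L (h j i) * X j) G₁ ρ₁

/-- T33: no stable lines and planes.  `x_u = ∑ u_i X i`, `ρ g x_u = x_(g u)`.  A stable line `F u`: `G₀` acts by a character of order prime to `p`, trivial by `NCL` (its kernel contains all `ram 1`), so `x = x_u ∈ k(t)`, regular, `x ∣ 1` in `k[t]` (divide the equation by `x`), so `x ∈ k` and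
`a x ^ (q ^ 2) + b x ^ q ∈ k`: against the first hypothesis.  A stable plane `U`: `R(T) = ∏_(u ∈ U) (T - x_u) = T ^ (q ^ 2) + c T ^ q + d T`, `c, d ∈ k[t]`; `y = R(x_v)`, `v ∉ U`, is fixed, `y ∈ k[t]`; the polynomial is `R ^ q - y ^ (q - 1) R`: `1 = - y ^ (q - 1) d`, so `y, d ∈ k`,
`a = c ^ q - y ^ (q - 1)`, `b = d ^ q - y ^ (q - 1) c`: against the second -/
def S_T33 : Prop := ∀ (p : ℕ) (k F L : Type) [Field k] [IsAlgClosed k] [Field F] [Algebra F k]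
  [Field L] [Algebra k L] (f q : ℕ) (a b : Polynomial k) (t : L) (X : Fin 3 → L)
  (G₀ : Subgroup (Matrix.SpecialLinearGroup (Fin 3) F)) (ρ : G₀ →* (L ≃ₐ[k] L)),
  p.Prime → CharP k p → 1 ≤ f → q = p ^ f → Nat.card F = q → S3 k F L q a b t X →
  C3 k F L t X G₀ ρ → (∀ α β : k, α ≠ 0 → a ≠ C α * b + C β) →
  (∀ α β : k, α ≠ 0 → a ≠ C α * b ^ q + C β) → ∀ U : Submodule F (Fin 3 → F),
  (∀ g ∈ G₀, ∀ u ∈ U, g.1.mulVec u ∈ U) → U = ⊥ ∨ U = ⊤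

/-- T34: an irreducible subgroup of `SL_3(F)` containing all transvections with centre `F e_0` is `SL_3(F)`.  The set `O` of the lines `g F e_0`, `g ∈ G₀`; `G₀` contains all transvections with centre in `O`; for `ℓ' ≠ ℓ''` in `O` these move `ℓ''` to all lines of `ℓ' + ℓ''` other than `ℓ'`; so `O` = the lines
of a stable subspace, so all lines; the transvections generate -/
def S_T34 : Prop := ∀ (F : Type) [Field F] [Finite F]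
  (G₀ : Subgroup (Matrix.SpecialLinearGroup (Fin 3) F)),
  (∀ U : Submodule F (Fin 3 → F), (∀ g ∈ G₀, ∀ u ∈ U, g.1.mulVec u ∈ U) → U = ⊥ ∨ U = ⊤) →
  (∀ g : Matrix.SpecialLinearGroup (Fin 3) F, (∀ i j, i ≠ 0 → g.1 i j = if i = j then 1 else 0) →
    g.1 0 0 = 1 → g ∈ G₀) → G₀ = ⊤

/-! ## Local theory -/

/-- UMR: Artin-Schreier coordinates with values in `F`.  For `a ≠ 0` and additive `φ = Tr(∑ a_i v_i) : F ^ r → F_p` (all nonzero additive maps to `F_p` are of this form): `y_a = ∑_(i < f) (∑_j a_j Z_j) ^ (p ^ i)` has `w y_a = y_a + φ(c w)`, `y_a ^ p - y_a = ∑ a_i (Z_i ^ q - Z_i)`; `y = y_a - g` has `p P.ord y =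
- D_a |W|` (`g` is fixed by `W`), so `y` is not fixed by `W` (`TOT`), `φ ∘ c ≠ 0` on `W`; so `c` is onto, `|W| = q ^ r |N|`.  `N_a` = the kernel of `φ ∘ c` in `W`, of index `p`: the coset sums over `W ∖ N_a` are `|N_a| D_a` (`HBX`).  Last part: `UQM`, `ELG`, `ELA` as in `WUV`: `U(W) = max D_a`.
Third part: all `D_a = D`: the coset sums `β(w)` of `N` for `w ∈ W ∖ N` satisfy: their sum over `N_a / N`-cosets is `|N_a / N| D`, for all `a`; for `w` with the largest `β`, taking `N_a ∌ w`, `β` is constant `D` (ultrametric property of `β`) -/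
def S_UMR : Prop := ∀ (p : ℕ) (k F L G : Type) [Field k] [IsAlgClosed k] [Field F] [Algebra F k]
  [Field L] [Algebra k L] [Group G] [Fintype G] (f q r D : ℕ) (P : Place k L)
  (ρ : G →* (L ≃ₐ[k] L)) (W N : Subgroup G) (c : G → Fin r → F) (Z : Fin r → L)
  (Da : (Fin r → F) → ℕ), p.Prime → CharP k p → 1 ≤ f → q = p ^ f → Nat.card F = q → 1 ≤ r →
  Function.Injective ρ → (∀ g ∈ W, g ∈ ram P ρ 1) → N ≤ W → (∀ g ∈ W, g ∈ N ↔ c g = 0) →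
  (∀ g ∈ W, ∀ h ∈ W, c (g * h) = c g + c h) →
  (∀ g ∈ W, ∀ i, ρ g (Z i) = Z i + cst k F L (c g i)) →
  (∀ a : Fin r → F, a ≠ 0 → 1 ≤ Da a ∧ ¬ p ∣ Da a ∧ Da a ≤ D ∧ ∃ g : L, (∀ w ∈ W, ρ w g = g) ∧
    (∑ i, cst k F L (a i) * (Z i ^ q - Z i) - (g ^ p - g)) ≠ 0 ∧
    P.ord (∑ i, cst k F L (a i) * (Z i ^ q - Z i) - (g ^ p - g)) =
      -((Da a * Nat.card W : ℕ) : ℤ)) →
  Nat.card W = q ^ r * Nat.card N ∧ (∀ v : Fin r → F, ∃ g ∈ W, c g = v) ∧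
  ((∀ a : Fin r → F, a ≠ 0 → Da a = D) → ∀ g ∈ W, g ∉ N →
    sm (fun x => P.b (ρ x)) {x | g⁻¹ * x ∈ N} = Nat.card N * D) ∧
  (N = ⊥ → (∃ a : Fin r → F, a ≠ 0 ∧ Da a = D) → ∃ l : ℤ, IsLst (fun g => P.b (ρ g)) W l ∧
    U (fun g => P.b (ρ g)) W l = D)

/-- LC1: conductor from a normal subgroup `M` of `W`: the last value on `W` is taken on `M` (else the coset sum of that element, `≥ l + ∑_(M ∖ 1) b = |M| D`, is `|M| τ`), `|W| U(W) = |M| D + (|W| - |M|) τ`; `CNV` -/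
def S_LC1 : Prop := ∀ (p : ℕ) (k L G : Type) [Field k] [Field L] [Algebra k L] [Group G]
  [Fintype G] (P : Place k L) (ρ : G →* (L ≃ₐ[k] L)) (I W M : Subgroup G) (D τ : ℕ) (l : ℤ),
  p.Prime → CharP k p → Function.Injective ρ → (I : Set G) = ram P ρ 0 →
  (W : Set G) = ram P ρ 1 → M ≤ W → (∀ g ∈ W, ∀ m ∈ M, g * m * g⁻¹ ∈ M) →
  (∀ g ∈ W, g ∉ M → sm (fun x => P.b (ρ x)) {x | g⁻¹ * x ∈ M} = Nat.card M * τ) → τ < D →
  IsLst (fun g => P.b (ρ g)) M l → U (fun g => P.b (ρ g)) M l = D →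
  IsConductor P ρ (((Nat.card M : ℚ) * D + ((Nat.card W : ℚ) - Nat.card M) * τ) / Nat.card I)

/-! ## Case (I) -/

/-- T41: `T32`, `EXI`, `T36`; `o = P.ord x`, `e = - P.ord t`, for roots `x ≠ 0`: `(q - 1) o = e` or `(q ^ 3 - q) o = - e` (two of `q ^ 3 o`, `- e + q o`, `o` are equal and least); those of the first kind, with `0`, form a subspace, of dimension `1` since the product of all nonzero roots is `± 1` -/
def S_T41 : Prop := ∀ (p : ℕ) (k F : Type) [Field k] [IsAlgClosed k] [Field F] [Algebra F k]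
  (f q : ℕ), p.Prime → CharP k p → 1 ≤ f → q = p ^ f → Nat.card F = q →
  ∃ (L : Type) (_ : Field L) (_ : Algebra k L) (t : L) (X : Fin 3 → L)
    (G₀ : Subgroup (Matrix.SpecialLinearGroup (Fin 3) F)) (ρ : G₀ →* (L ≃ₐ[k] L))
    (P : Place k L), S3 k F L q 0 Polynomial.X t X ∧ C3 k F L t X G₀ ρ ∧ P.ord t < 0 ∧
    ((q : ℤ) - 1) * P.ord (X 0) = -P.ord t ∧ ∀ c : Fin 3 → F, (c 1 ≠ 0 ∨ c 2 ≠ 0) →
      ((q : ℤ) ^ 3 - q) * P.ord (∑ i, cst k F L (c i) * X i) = P.ord t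

/-- T42: `W = ram 1`: `w X_0 = X_0`, `w X_i - X_i ∈ F X_0` (`P.ord (w x - x) > P.ord x`).  `UMR` with `r = 2`, `N = ⊥`, `c g = (g_01, g_02)`, `Z_i = X_(i+1) / X_0`, `g = 0`: `∑ a_i (Z_i ^ q - Z_i) = (x ^ q - X_0 ^ (q - 1) x) / X_0 ^ q`, `x = a_0 X_1 + a_1 X_2`, of order `P.ord t (q ^ 2 + q + 1) / (q ^ 2 - 1)
= - D |W|` with `D (q ^ 2 - 1) = n (q ^ 2 + q + 1)`, `n = |I / W|` (`INF`: `P.ord t = - |I|`; it is fixed by `W`, `TOT`); `c = U(W) / n` (`CNV`) -/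
def S_T42 : Prop := ∀ (p : ℕ) (k F L : Type) [Field k] [IsAlgClosed k] [Field F] [Algebra F k]
  [Field L] [Algebra k L] (f q : ℕ) (t : L) (X : Fin 3 → L)
  (G₀ : Subgroup (Matrix.SpecialLinearGroup (Fin 3) F)) (ρ : G₀ →* (L ≃ₐ[k] L)) (P : Place k L),
  p.Prime → CharP k p → 1 ≤ f → q = p ^ f → Nat.card F = q → S3 k F L q 0 Polynomial.X t X →
  C3 k F L t X G₀ ρ → P.ord t < 0 → ((q : ℤ) - 1) * P.ord (X 0) = -P.ord t →
  (∀ c : Fin 3 → F, (c 1 ≠ 0 ∨ c 2 ≠ 0) →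
      ((q : ℤ) ^ 3 - q) * P.ord (∑ i, cst k F L (c i) * X i) = P.ord t) →
  (∀ g : Matrix.SpecialLinearGroup (Fin 3) F, (∀ i j, i ≠ 0 → g.1 i j = if i = j then 1 else 0) →
    g.1 0 0 = 1 → g ∈ G₀) ∧ IsConductor P ρ (((q : ℚ) ^ 2 + q + 1) / ((q : ℚ) ^ 2 - 1))

/-- T43: `T41`, `T42`, `T33`, `T34` (`G₀ = ⊤`; transfer to the group `SL_3(F)`) -/
def S_T43 : Prop := ∀ (p : ℕ) (k F : Type) [Field k] [IsAlgClosed k] [Field F] [Algebra F k]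
  (f q : ℕ), p.Prime → CharP k p → 1 ≤ f → q = p ^ f → Nat.card F = q →
  ((q : ℚ) ^ 2 + q + 1) / ((q : ℚ) ^ 2 - 1) ∈ Cond k (Matrix.SpecialLinearGroup (Fin 3) F)

/-! ## Case (II) -/

/-- T51: as `T41`; orders of the roots, with `e = - P.ord t`, `a` of degree `q ^ 2 - q`, `b` of degree `q ^ 2 - 2`: `(q - 1) o = (q ^ 2 - 2) e`, or `q (q - 1) o = - (q - 2) e`, or `q o = - e` (the least of the four terms is taken twice), on a flag of subspaces of dimensions `1, 2, 3`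
(orders of the product of the nonzero roots, `± 1`) -/
def S_T51 : Prop := ∀ (p : ℕ) (k F : Type) [Field k] [IsAlgClosed k] [Field F] [Algebra F k]
  (f q : ℕ), p.Prime → p ≠ 2 → CharP k p → 1 ≤ f → q = p ^ f → Nat.card F = q →
  ∃ (L : Type) (_ : Field L) (_ : Algebra k L) (t : L) (X : Fin 3 → L)
    (G₀ : Subgroup (Matrix.SpecialLinearGroup (Fin 3) F)) (ρ : G₀ →* (L ≃ₐ[k] L))
    (P : Place k L), S3 k F L q (Polynomial.X ^ (q ^ 2 - q) - C 2 * Polynomial.X ^ (q ^ 2 - q - 1))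
      (-Polynomial.X ^ (q ^ 2 - 2)) t X ∧ C3 k F L t X G₀ ρ ∧ P.ord t < 0 ∧
    ((q : ℤ) - 1) * P.ord (X 0) = -(((q : ℤ) ^ 2 - 2) * P.ord t) ∧
    (q : ℤ) * ((q : ℤ) - 1) * P.ord (X 1) = ((q : ℤ) - 2) * P.ord t ∧
    (q : ℤ) * P.ord (X 2) = P.ord t

/-- T52: the wild group is unitriangular: `P.ord (w x - x) > P.ord x` for `w ∈ ram 1`, and the orders of `∑ c_i X_i` from those of `X_0, X_1, X_2` (three different values) -/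
def S_T52 : Prop := ∀ (p : ℕ) (k F L : Type) [Field k] [IsAlgClosed k] [Field F] [Algebra F k]
  [Field L] [Algebra k L] (f q : ℕ) (t : L) (X : Fin 3 → L)
  (G₀ : Subgroup (Matrix.SpecialLinearGroup (Fin 3) F)) (ρ : G₀ →* (L ≃ₐ[k] L)) (P : Place k L),
  p.Prime → p ≠ 2 → CharP k p → 1 ≤ f → q = p ^ f → Nat.card F = q → C3 k F L t X G₀ ρ →
  (∀ i, X i ≠ 0) → P.ord t < 0 → ((q : ℤ) - 1) * P.ord (X 0) = -(((q : ℤ) ^ 2 - 2) * P.ord t) →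
  (q : ℤ) * ((q : ℤ) - 1) * P.ord (X 1) = ((q : ℤ) - 2) * P.ord t →
  (q : ℤ) * P.ord (X 2) = P.ord t → ∀ g : G₀, g ∈ ram P ρ 1 →
  (∀ i j, j < i → g.1.1 i j = 0) ∧ ∀ i, g.1.1 i i = 1

/-- T53: algebra.  `R_1(T) = T ^ q - X_0 ^ (q - 1) T`, `S_2 = R_1(X_1)`, `S_3 = R_1(X_2)`, `Q_3 = S_3 ^ q - S_2 ^ (q - 1) S_3`.  The polynomial is `E_2 ∘ R_1`, `E_2(S) = S ^ (q ^ 2) + a' S ^ q + b' S`, `a' = a + x ^ (q ^ 2)`, `b' = - 1 / x`, `x = X_0 ^ (q - 1)` (the coefficient of `T ^ q` by the equation of `X_0`); `E_2 =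
E_3 ∘ R_2`, `R_2(S) = S ^ q - y S`, `y = S_2 ^ (q - 1)`, `E_3(Q) = Q ^ q + a'' Q`, `a'' = a' + y ^ q` -/
def S_T53 : Prop := ∀ (p : ℕ) (k F L : Type) [Field k] [IsAlgClosed k] [Field F] [Algebra F k]
  [Field L] [Algebra k L] (f q : ℕ) (a b : Polynomial k) (t : L) (X : Fin 3 → L) (S₂ S₃ Q₃ : L),
  p.Prime → CharP k p → 1 ≤ f → q = p ^ f → Nat.card F = q → S3 k F L q a b t X →
  S₂ = X 1 ^ q - X 0 ^ (q - 1) * X 1 → S₃ = X 2 ^ q - X 0 ^ (q - 1) * X 2 →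
  Q₃ = S₃ ^ q - S₂ ^ (q - 1) * S₃ → X 0 ≠ 0 ∧ S₂ ≠ 0 ∧ Q₃ ≠ 0 ∧
  X 0 ^ (q - 1) * (aeval t b + (aeval t a + (X 0 ^ (q - 1)) ^ q ^ 2) * (X 0 ^ (q - 1)) ^ q) =
    -1 ∧
  X 0 ^ (q - 1) * S₂ ^ (q - 1) *
    (aeval t a + (X 0 ^ (q - 1)) ^ q ^ 2 + (S₂ ^ (q - 1)) ^ q) = 1 ∧
  Q₃ ^ (q - 1) = -(aeval t a + (X 0 ^ (q - 1)) ^ q ^ 2 + (S₂ ^ (q - 1)) ^ q)

/-- T54: estimates, `e = - P.ord t`, `O(z)` = order at least that of `z`.  `x = X_0 ^ (q - 1) = t ^ (-(q ^ 2 - 2)) (1 + O(1 / t))`, `y = S_2 ^ (q - 1) = t ^ (q - 2) (1 + O(1 / t))`, `Q_3 ^ (q - 1) = - t ^ (q ^ 2 - q) (1 - 2 / t + O(1 / t ^ 2))` (`T53`).  `Q_3 / t ^ q` has a residue `ζ`, `ζ ^ (q - 1) = - 1`;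
`Q_3 = ζ t ^ q (1 + ε)`, `(1 + ε) ^ (q - 1) = 1 - ε + O(ε ^ 2)`, so `ε = 2 / t + O(1 / t ^ 2)`.  `η ^ q = ζ`, `h = η t / S_2`, `η ^ (q - 1) = - 1`, `h ^ (q - 1) = - t (1 + O(1 / t))`.  `u = S_3 / S_2`: `u ^ q - u = Q_3 / S_2 ^ q = h ^ q (1 + 2 / t + O(1 / t ^ 2))`, `h ^ q / t = - h (1 + O(1 / t))`.  `z = u - h`:
`z ^ q - z = - h + O(h / t)`.  `(S_2 / X_0 ^ q) ^ (q - 1) = t ^ ν (1 + O(1 / t))`, `ν = q ^ 3 - q - 2` even, so `S_2 / X_0 ^ q = α h ^ ν (1 + O(1 / t))` -/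
def S_T54 : Prop := ∀ (p : ℕ) (k F L : Type) [Field k] [IsAlgClosed k] [Field F] [Algebra F k]
  [Field L] [Algebra k L] (f q : ℕ) (t : L) (X : Fin 3 → L) (S₂ S₃ : L) (P : Place k L),
  p.Prime → p ≠ 2 → CharP k p → 1 ≤ f → q = p ^ f → Nat.card F = q →
  S3 k F L q (Polynomial.X ^ (q ^ 2 - q) - C 2 * Polynomial.X ^ (q ^ 2 - q - 1))
      (-Polynomial.X ^ (q ^ 2 - 2)) t X → P.ord t < 0 →
  ((q : ℤ) - 1) * P.ord (X 0) = -(((q : ℤ) ^ 2 - 2) * P.ord t) →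
  (q : ℤ) * ((q : ℤ) - 1) * P.ord (X 1) = ((q : ℤ) - 2) * P.ord t →
  (q : ℤ) * P.ord (X 2) = P.ord t → S₂ = X 1 ^ q - X 0 ^ (q - 1) * X 1 →
  S₃ = X 2 ^ q - X 0 ^ (q - 1) * X 2 → ∃ (η α : k) (h z : L), η ≠ 0 ∧ α ≠ 0 ∧
    h = algebraMap k L η * t / S₂ ∧ z = S₃ / S₂ - h ∧ h ≠ 0 ∧
    ((q : ℤ) - 1) * P.ord h = P.ord t ∧ P.Ge (z ^ q - z + h) (P.ord h - P.ord t) ∧
    P.Ge (S₂ / X 0 ^ q - algebraMap k L α * h ^ (q ^ 3 - q - 2))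
      (((q ^ 3 - q - 2 : ℕ) : ℤ) * P.ord h - P.ord t)

/-- T55: the quotient `W / M`, `M = {g_12 = 0}`.  `ρ g z = z + g_12` for `g ∈ W` (`S_2`, `h` are fixed by `W`, `ρ g S_3 = S_3 + g_12 S_2`), `A = z ^ q - z` is fixed by `W`, `(q - 1) P.ord A = P.ord t = - |I|` (`INF`): `τ = - P.ord A / |W|` (`TOT`), `|I| = |W| (q - 1) τ`, `τ` prime to `p` (`WLD`); `UMR` with `r = 1`,
`N = M`, `D_a = τ`, `g = 0` -/
def S_T55 : Prop := ∀ (p : ℕ) (k F L : Type) [Field k] [IsAlgClosed k] [Field F] [Algebra F k]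
  [Field L] [Algebra k L] (f q : ℕ) (t : L) (X : Fin 3 → L)
  (G₀ : Subgroup (Matrix.SpecialLinearGroup (Fin 3) F)) [Fintype G₀] (ρ : G₀ →* (L ≃ₐ[k] L))
  (P : Place k L) (S₂ S₃ h z : L) (η : k) (I W M : Subgroup G₀),
  p.Prime → p ≠ 2 → CharP k p → 1 ≤ f → q = p ^ f → Nat.card F = q → C3 k F L t X G₀ ρ →
  P.ord t < 0 → (∀ g : G₀, g ∈ ram P ρ 1 → (∀ i j, j < i → g.1.1 i j = 0) ∧
    ∀ i, g.1.1 i i = 1) → S₂ = X 1 ^ q - X 0 ^ (q - 1) * X 1 →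
  S₃ = X 2 ^ q - X 0 ^ (q - 1) * X 2 → X 0 ≠ 0 → S₂ ≠ 0 → h = algebraMap k L η * t / S₂ →
  h ≠ 0 → z = S₃ / S₂ - h → ((q : ℤ) - 1) * P.ord h = P.ord t →
  P.Ge (z ^ q - z + h) (P.ord h - P.ord t) → (I : Set G₀) = ram P ρ 0 →
  (W : Set G₀) = ram P ρ 1 → (∀ g, g ∈ M ↔ g ∈ W ∧ g.1.1 1 2 = 0) →
  ∃ τ : ℕ, 1 ≤ τ ∧ ¬ p ∣ τ ∧ Nat.card W = q * Nat.card M ∧
    Nat.card I = Nat.card W * ((q - 1) * τ) ∧ P.ord z = -((τ * Nat.card M : ℕ) : ℤ) ∧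
    (∀ g ∈ W, ρ g z = z + cst k F L (g.1.1 1 2)) ∧
    ∀ g ∈ W, g ∉ M → sm (fun x => P.b (ρ x)) {x | g⁻¹ * x ∈ M} = Nat.card M * τ

/-- T56: `M`, `c g = (g_01, g_02)`, `r = 2`, `N = ⊥`, `Z = (X_1 / X_0, X_2 / X_0)`: `Z_0 ^ q - Z_0 = A_1 = S_2 / X_0 ^ q`, `Z_1 ^ q - Z_1 = S_3 / X_0 ^ q = (z + h) A_1`.  With `A = z ^ q - z = - h + O(h / t)`, `A_1 = α h ^ ν + ... = α' A ^ ν + O(A ^ ν / t)` (`α' ≠ 0`): `a_0 A_1 + a_1 (z + h) A_1 = F(z) + O(A ^ (ν + 1) / t)`, `F = a_0 α' A ^ ν + a_1 α' (X A ^ ν - A ^ (ν + 1))`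
with the polynomial `A = X ^ q - X` (`e_0 = - 1`, `ν + 1 = - 1` in `k`, so the coefficient is that of `XT2`); reduced degree `D_0 = q (ν - 1) + 2` if `a_1 ≠ 0` (`XT2`), `g = r(z)`; and a degree `D'` prime to `p`, `q (ν - 1) + 1 ≤ D' ≤ D_0` if `a_1 = 0` (`XT1`, `XRD`; difference of two polynomials of `XT2`).
Orders: `P.ord z = - τ |M|`, so the error has order `> - (q (ν - 1) + 1) τ |M|` (`P.ord t = - q (q - 1) τ |M|`, `q ≥ 3`); for `a_1 = 0` it is `O(A ^ ν / t)`.  `UMR` with `D = D_0 τ` -/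
def S_T56 : Prop := ∀ (p : ℕ) (k F L : Type) [Field k] [IsAlgClosed k] [Field F] [Algebra F k]
  [Field L] [Algebra k L] (f q : ℕ) (t : L) (X : Fin 3 → L)
  (G₀ : Subgroup (Matrix.SpecialLinearGroup (Fin 3) F)) [Fintype G₀] (ρ : G₀ →* (L ≃ₐ[k] L))
  (P : Place k L) (S₂ S₃ h z : L) (α : k) (W M : Subgroup G₀) (τ : ℕ),
  p.Prime → p ≠ 2 → CharP k p → 1 ≤ f → q = p ^ f → Nat.card F = q → C3 k F L t X G₀ ρ →
  P.ord t < 0 → (∀ g : G₀, g ∈ ram P ρ 1 → (∀ i j, j < i → g.1.1 i j = 0) ∧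
    ∀ i, g.1.1 i i = 1) → S₂ = X 1 ^ q - X 0 ^ (q - 1) * X 1 →
  S₃ = X 2 ^ q - X 0 ^ (q - 1) * X 2 → X 0 ≠ 0 → S₂ ≠ 0 → h ≠ 0 → α ≠ 0 →
  z = S₃ / S₂ - h → ((q : ℤ) - 1) * P.ord h = P.ord t →
  P.Ge (z ^ q - z + h) (P.ord h - P.ord t) →
  P.Ge (S₂ / X 0 ^ q - algebraMap k L α * h ^ (q ^ 3 - q - 2))
      (((q ^ 3 - q - 2 : ℕ) : ℤ) * P.ord h - P.ord t) → (W : Set G₀) = ram P ρ 1 →
  (∀ g, g ∈ M ↔ g ∈ W ∧ g.1.1 1 2 = 0) → 1 ≤ τ → ¬ p ∣ τ →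
  P.ord z = -((τ * Nat.card M : ℕ) : ℤ) →
  (∀ g ∈ W, ρ g z = z + cst k F L (g.1.1 1 2)) → (∀ g ∈ W, ρ g h = h) →
  Nat.card M = q ^ 2 ∧ (∀ v : Fin 2 → F, ∃ g ∈ M, g.1.1 0 1 = v 0 ∧ g.1.1 0 2 = v 1) ∧
  ∃ l : ℤ, IsLst (fun g => P.b (ρ g)) M l ∧
    U (fun g => P.b (ρ g)) M l = (((q * (q ^ 3 - q - 3) + 2) * τ : ℕ) : ℚ)

/-- T57: `T51`-`T56`, `LC1`, `T33`, `T34`: `q ^ 2 D_0 τ + (q ^ 3 - q ^ 2) τ` over `q ^ 3 (q - 1) τ` is `(D_0 + q - 1) / (q (q - 1))`, `D_0 = q (q ^ 3 - q - 3) + 2` -/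
def S_T57 : Prop := ∀ (p : ℕ) (k F : Type) [Field k] [IsAlgClosed k] [Field F] [Algebra F k]
  (f q : ℕ), p.Prime → p ≠ 2 → CharP k p → 1 ≤ f → q = p ^ f → Nat.card F = q →
  ((q : ℚ) ^ 4 - q ^ 2 - 2 * q + 1) / ((q : ℚ) * (q - 1)) ∈
    Cond k (Matrix.SpecialLinearGroup (Fin 3) F)

/-! ## Results -/

/-- T60: lower bound: `ALL` for `T43` and `T57`.  `q (q - 1) ∣ N` (the numerator of `T57` is `1` modulo `q` and `- 1` modulo `q - 1`); `(q ^ 2 - 1) ∣ N (q ^ 2 + q + 1)`, `gcd(q ^ 2 - 1, q ^ 2 + q + 1) = gcd(q - 1, 3)`, so `q ^ 2 - 1 ∣ N` -/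
def S_T60 : Prop := ∀ (p : ℕ) (k F : Type) [Field k] [IsAlgClosed k] [Field F] [Algebra F k]
  (f q : ℕ), p.Prime → p ≠ 2 → CharP k p → 1 ≤ f → q = p ^ f → Nat.card F = q →
  q * (q ^ 2 - 1) ∣ NG k (Matrix.SpecialLinearGroup (Fin 3) F)

/-- T61: upper bound: `GDW` with `a = f`, `r = q ^ 2 - 1`.  `W ≤ SL_3(F) / C` a `p`-subgroup, `W₁` the Sylow `p`-subgroup of its preimage (`|C|` is prime to `p`), in a conjugate of the unitriangular group; `H = ⟨z⟩ (W₁ ∩ {g_12 = 0})` abelian of index dividing `q`, `H₀ = ⊥`.  `g` of order prime to `p` normalising `W ≠ 1` (`W` generates, so `W ≠ 1`): its lift normalises `W₁`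
(characteristic in `C × W₁`), so stabilises the fixed space of `W₁`, `0 < dim < 3`, so its eigenvalues are in `F_(q ^ 2)` and `g ^ (q ^ 2 - 1) = 1` (semisimple) -/
def S_T61 : Prop := ∀ (p : ℕ) (k F : Type) [Field k] [IsAlgClosed k] [Field F]
  (f q : ℕ), p.Prime → CharP k p → 1 ≤ f → q = p ^ f → Nat.card F = q →
  ∀ (C : Subgroup (Matrix.SpecialLinearGroup (Fin 3) F)) [C.Normal],
  C ≤ Subgroup.center (Matrix.SpecialLinearGroup (Fin 3) F) →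
  NG k (Matrix.SpecialLinearGroup (Fin 3) F ⧸ C) ∣ q * (q ^ 2 - 1)

/-- T62: `T60`, `NQD` (`NG k G ∣ NG k (G ⧸ C)`, `|C|` prime to `p`), `T61` (`F` embeds in `k`) -/
def S_T62 : Prop := ∀ (p : ℕ) (k F : Type) [Field k] [IsAlgClosed k] [Field F]
  (f q : ℕ), p.Prime → p ≠ 2 → CharP k p → 1 ≤ f → q = p ^ f → Nat.card F = q →
  ∀ (C : Subgroup (Matrix.SpecialLinearGroup (Fin 3) F)) [C.Normal],
  C ≤ Subgroup.center (Matrix.SpecialLinearGroup (Fin 3) F) →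
  NG k (Matrix.SpecialLinearGroup (Fin 3) F ⧸ C) = q * (q ^ 2 - 1)

end Pool.CND
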